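import Mathlib
import Pool.Agent.Y248.FB.Stm
set_option autoImplicit false

/-! # Project FB: tails of the kernels, a Schur estimate, measurability -/

namespace Pool.Agent.Y71.FB

open MeasureTheory Set Metric Complex Filter
open scoped ENNReal RealInnerProductSpace Topology FourierTransform
open Pool.Agent.H789R2.FR (E sg T)
open Pool.Agent.H438R2.RZ (Bump)
open Pool.Agent.Y248.BA
open Pool.Agent.Y248.FB

/-- tails of the kernels, with arbitrary decay in `A` -/
theorem Kr_tailM (n : ℕ) {ψ : ℝ → ℝ} (hψ : Bump ψ) (ε : ℝ) (hε : 0 < ε) (M : ℝ) :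
    ∃ C : ℝ, 0 < C ∧ ∀ A R : ℝ, 1 ≤ A → 1 ≤ R → R ≤ 2 → ∀ w : E n, A ^ (1 + ε) ≤ ‖w‖ →
      ‖Kr (n := n) ψ A R w‖ ≤ C * A ^ (-M) * Jw w := by
  obtain ⟨N, hN⟩ := exists_nat_ge (max ((M + ((n : ℝ) + 1) * (1 + ε)) / ε) (-M))
  have hN1 : (M + ((n : ℝ) + 1) * (1 + ε)) / ε ≤ N := (le_max_left _ _).trans hN
  have hN2 : -M ≤ N := (le_max_right _ _).trans hN
  obtain ⟨C, hC, hb⟩ := Kr_dec n hψ N
  refine ⟨C * 2 ^ (n + 1), by positivity, fun A R hA hR1 hR2 w hw => ?_⟩
  have hA0 : 0 < A := by linarith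
  have h1w : 1 ≤ ‖w‖ := le_trans (Real.one_le_rpow hA (by linarith)) hw
  have hw0 : 0 < ‖w‖ := by linarith
  have hAw : A ≤ ‖w‖ ^ (1 / (1 + ε)) := by
    have := Real.rpow_le_rpow (by positivity) hw (show 0 ≤ 1 / (1 + ε) by positivity)
    rwa [← Real.rpow_mul hA0.le, mul_one_div, div_self (by positivity), Real.rpow_one] at this
  have h2 : A ^ ((N : ℝ) + M) ≤ ‖w‖ ^ ((N : ℝ) - ((n : ℝ) + 1)) := by
    calc A ^ ((N : ℝ) + M) ≤ (‖w‖ ^ (1 / (1 + ε))) ^ ((N : ℝ) + M) :=
          Real.rpow_le_rpow hA0.le hAw (by linarith)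
      _ = ‖w‖ ^ (((N : ℝ) + M) / (1 + ε)) := by
        rw [← Real.rpow_mul hw0.le]; congr 1; ring
      _ ≤ _ := by
        refine Real.rpow_le_rpow_of_exponent_le h1w ?_
        rw [div_le_iff₀ (by positivity)]
        rw [div_le_iff₀ hε] at hN1
        nlinarith
  have h3 := hb A R hA hR1 hR2 w
  have h4 : ‖Kr (n := n) ψ A R w‖ ≤ C * A ^ (-M) * ‖w‖ ^ (-((n : ℝ) + 1)) := by
    have h5 : ‖Kr (n := n) ψ A R w‖ ≤ C * A ^ N / ‖w‖ ^ N := by
      rw [le_div_iff₀ (by positivity), mul_comm]; exact h3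
    refine h5.trans ?_
    rw [div_le_iff₀ (by positivity)]
    have h6 : C * A ^ (-M) * ‖w‖ ^ (-((n : ℝ) + 1)) * ‖w‖ ^ N =
        C * (A ^ (-M) * ‖w‖ ^ ((N : ℝ) - ((n : ℝ) + 1))) := by
      rw [Real.rpow_sub hw0, Real.rpow_neg hw0.le, Real.rpow_natCast]
      ring
    rw [h6]
    refine mul_le_mul_of_nonneg_left ?_ hC.le
    calc A ^ N = A ^ (-M) * A ^ ((N : ℝ) + M) := by
          rw [← Real.rpow_add hA0, ← Real.rpow_natCast]; congr 1; ring
      _ ≤ _ := by gcongr
  refine h4.trans ?_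
  calc C * A ^ (-M) * ‖w‖ ^ (-((n : ℝ) + 1)) ≤ C * A ^ (-M) * (2 ^ (n + 1) * Jw w) :=
        mul_le_mul_of_nonneg_left (Jw_ge w h1w) (by positivity)
    _ = _ := by ring

/-- the weight as a sum over dyadic balls -/
theorem Jw_dyadic {n : ℕ} (w : E n) : ENNReal.ofReal (Jw w) ≤
    ∑' j : ℕ, ENNReal.ofReal (2 ^ (-((j : ℝ) * ((n : ℝ) + 1)))) *
      (closedBall (0 : E n) (2 ^ (j + 1))).indicator (fun _ => (1 : ℝ≥0∞)) w := by
  have h1 : (1 : ℝ) ≤ 1 + ‖w‖ := by linarith [norm_nonneg w]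
  obtain ⟨j, hj1, hj2⟩ := exists_nat_pow_near h1 (by norm_num : (1 : ℝ) < 2)
  refine le_trans ?_ (ENNReal.le_tsum j)
  have hmem : w ∈ closedBall (0 : E n) (2 ^ (j + 1)) := by
    rw [mem_closedBall_zero_iff]; linarith
  rw [indicator_of_mem hmem, mul_one]
  refine ENNReal.ofReal_le_ofReal ?_
  unfold Jw
  have h2 : (2 : ℝ) ^ (-((j : ℝ) * ((n : ℝ) + 1))) = ((2 : ℝ) ^ j) ^ (-((n : ℝ) + 1)) := by
    rw [← Real.rpow_natCast 2 j, ← Real.rpow_mul (by norm_num)]; congr 1; ring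
  rw [h2]
  exact Real.rpow_le_rpow_of_nonpos (by positivity) hj1 (by linarith [(Nat.cast_nonneg n : (0:ℝ) ≤ n)])

theorem Jw_mass {n : ℕ} {α : ℝ} (hα : α ≤ n) {μ : Measure (E n)} (hμ : Dim α μ) (y : E n) :
    ∫⁻ x : E n, ENNReal.ofReal (Jw (x - y)) ∂μ ≤ ENNReal.ofReal (2 ^ (n + 1)) := by
  have hJ : ∀ x : E n, ENNReal.ofReal (Jw (x - y)) ≤
      ∑' j : ℕ, ENNReal.ofReal (2 ^ (-((j : ℝ) * ((n : ℝ) + 1)))) *
        (closedBall y (2 ^ (j + 1))).indicator (fun _ => (1 : ℝ≥0∞)) x := by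
    intro x
    refine (Jw_dyadic (x - y)).trans (le_of_eq ?_)
    refine tsum_congr fun j => ?_
    congr 1
    by_cases hx : x ∈ closedBall y ((2 : ℝ) ^ (j + 1))
    · rw [indicator_of_mem hx, indicator_of_mem]
      rw [mem_closedBall_zero_iff, ← dist_eq_norm]; exact hx
    · rw [indicator_of_notMem hx, indicator_of_notMem]
      rw [mem_closedBall_zero_iff, ← dist_eq_norm]; exact hx
  have hms : ∀ j : ℕ, MeasurableSet (closedBall y ((2 : ℝ) ^ (j + 1))) :=
    fun j => isClosed_closedBall.measurableSet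
  calc ∫⁻ x : E n, ENNReal.ofReal (Jw (x - y)) ∂μ
      ≤ ∫⁻ x : E n, ∑' j : ℕ, ENNReal.ofReal (2 ^ (-((j : ℝ) * ((n : ℝ) + 1)))) *
        (closedBall y (2 ^ (j + 1))).indicator (fun _ => (1 : ℝ≥0∞)) x ∂μ := lintegral_mono hJ
    _ = ∑' j : ℕ, ENNReal.ofReal (2 ^ (-((j : ℝ) * ((n : ℝ) + 1)))) *
        μ (closedBall y (2 ^ (j + 1))) := by
        rw [lintegral_tsum fun j =>
          ((measurable_const.indicator (hms j)).const_mul _).aemeasurable]
        refine tsum_congr fun j => ?_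
        rw [lintegral_const_mul _ (measurable_const.indicator (hms j)),
          lintegral_indicator (hms j), setLIntegral_one]
    _ ≤ ∑' j : ℕ, ENNReal.ofReal (2 ^ n * (1 / 2 : ℝ) ^ j) := by
        refine ENNReal.tsum_le_tsum fun j => ?_
        have h1 : (1 : ℝ) ≤ 2 ^ (j + 1) := one_le_pow₀ (by norm_num)
        refine (mul_le_mul' le_rfl (hμ y _ h1)).trans ?_
        rw [← ENNReal.ofReal_mul (by positivity)]
        refine ENNReal.ofReal_le_ofReal ?_
        have h2 : ((2 : ℝ) ^ (j + 1)) ^ α ≤ ((2 : ℝ) ^ (j + 1)) ^ (n : ℝ) :=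
          Real.rpow_le_rpow_of_exponent_le h1 hα
        refine (mul_le_mul_of_nonneg_left h2 (by positivity)).trans (le_of_eq ?_)
        rw [Real.rpow_natCast, Real.rpow_neg (by norm_num),
          show (j : ℝ) * ((n : ℝ) + 1) = ((j * (n + 1) : ℕ) : ℝ) by push_cast; ring,
          Real.rpow_natCast, ← pow_mul, one_div, inv_pow]
        have h3 : (2 : ℝ) ^ (j * (n + 1)) = 2 ^ (j * n) * 2 ^ j := by
          rw [← pow_add]; congr 1
        have h4 : (2 : ℝ) ^ ((j + 1) * n) = 2 ^ (j * n) * 2 ^ n := by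
          rw [← pow_add]; congr 1; ring
        rw [h3, h4]
        field_simp
        try ring
    _ = ENNReal.ofReal (2 ^ (n + 1)) := by
        have hs : Summable fun j : ℕ => (2 : ℝ) ^ n * (1 / 2 : ℝ) ^ j :=
          (summable_geometric_of_lt_one (by norm_num) (by norm_num)).mul_left _
        rw [← ENNReal.ofReal_tsum_of_nonneg (fun j => by positivity) hs, tsum_mul_left,
          tsum_geometric_of_lt_one (by norm_num) (by norm_num)]
        congr 1
        rw [pow_succ]; norm_num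

/-- Schur's estimate -/
theorem schur {n : ℕ} {α : ℝ} (hα : α ≤ n) {μ : Measure (E n)} [SFinite μ] (hμ : Dim α μ)
    (G : E n → ℝ≥0∞) (hG : Measurable G) (p : ℝ) (hp : 1 ≤ p) :
    ∫⁻ x : E n, (∫⁻ y : E n, ENNReal.ofReal (Jw (x - y)) * G y) ^ p ∂μ ≤
      (∫⁻ x : E n, ENNReal.ofReal (Jw x)) ^ (p - 1) * ENNReal.ofReal (2 ^ (n + 1)) *
        ∫⁻ y, G y ^ p := by
  set F : E n → ℝ≥0∞ := fun x => ENNReal.ofReal (Jw x) with hFd
  have hF : Measurable F := Jw_cont.measurable.ennreal_ofReal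
  have hconv : ∀ H : E n → ℝ≥0∞, Measurable H →
      ∫⁻ x : E n, (∫⁻ y : E n, F (x - y) * H y) ∂μ ≤ ENNReal.ofReal (2 ^ (n + 1)) * ∫⁻ y, H y := by
    intro H hH
    have hm : Measurable fun z : E n × E n => F (z.1 - z.2) * H z.2 :=
      (hF.comp (measurable_fst.sub measurable_snd)).mul (hH.comp measurable_snd)
    rw [lintegral_lintegral_swap hm.aemeasurable, ← lintegral_const_mul _ hH]
    refine lintegral_mono fun y => ?_
    have hFy : Measurable fun x : E n => F (x - y) := hF.comp (measurable_id.sub_const y)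
    rw [lintegral_mul_const _ hFy]
    exact mul_le_mul' (Jw_mass hα hμ y) le_rfl
  rcases hp.eq_or_lt with rfl | hp1
  · simp only [ENNReal.rpow_one, sub_self, ENNReal.rpow_zero, one_mul]
    exact hconv G hG
  · have hpq : p.HolderConjugate (Real.conjExponent p) := Real.HolderConjugate.conjExponent hp1
    set q := Real.conjExponent p with hq
    have hq0 : 0 < q := hpq.symm.pos
    have hp0 : 0 < p := hpq.pos
    have hpq1 : p / q = p - 1 := by
      have := hpq.inv_add_inv_eq_one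
      have h2 : p / q = p * q⁻¹ := div_eq_mul_inv _ _
      have h3 : q⁻¹ = 1 - p⁻¹ := by linarith
      rw [h2, h3, mul_sub, mul_one, mul_inv_cancel₀ hp0.ne']
    have h1 : ∀ x : E n, (∫⁻ y : E n, F (x - y) * G y) ^ p ≤
        (∫⁻ y, F y) ^ (p / q) * ∫⁻ y : E n, F (x - y) * G y ^ p := by
      intro x
      have hFx : Measurable fun y : E n => F (x - y) := hF.comp (measurable_const.sub measurable_id)
      have e1 : ∀ y : E n, F (x - y) * G y =
          (F (x - y) ^ (1 / p) * G y) * F (x - y) ^ (1 / q) := by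
        intro y
        have : F (x - y) = F (x - y) ^ (1 / p) * F (x - y) ^ (1 / q) := by
          rw [← ENNReal.rpow_add_of_nonneg _ _ (by positivity) (by positivity)]
          have : 1 / p + 1 / q = 1 := by
            have := hpq.inv_add_inv_eq_one
            rw [one_div, one_div, this]
          rw [this, ENNReal.rpow_one]
        conv_lhs => rw [this]
        ring
      have h2 := ENNReal.lintegral_mul_le_Lp_mul_Lq volume hpq
        (f := fun y => F (x - y) ^ (1 / p) * G y) (g := fun y => F (x - y) ^ (1 / q))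
        ((hFx.pow_const _).mul hG).aemeasurable (hFx.pow_const _).aemeasurable
      have e2 : (∫⁻ y : E n, F (x - y) * G y) ^ p =
          (∫⁻ y : E n, ((fun y => F (x - y) ^ (1 / p) * G y) * fun y => F (x - y) ^ (1 / q)) y) ^ p := by
        congr 1
        refine lintegral_congr fun y => ?_
        rw [e1]; rfl
      rw [e2]
      refine (ENNReal.rpow_le_rpow h2 hp0.le).trans ?_
      rw [ENNReal.mul_rpow_of_nonneg _ _ hp0.le, ← ENNReal.rpow_mul, ← ENNReal.rpow_mul,
        one_div_mul_cancel hp0.ne', ENNReal.rpow_one, mul_comm]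
      have e3 : ∀ y : E n, (F (x - y) ^ (1 / q)) ^ q = F (x - y) := by
        intro y
        rw [← ENNReal.rpow_mul, one_div_mul_cancel hq0.ne', ENNReal.rpow_one]
      have e4 : ∀ y : E n, (F (x - y) ^ (1 / p) * G y) ^ p = F (x - y) * G y ^ p := by
        intro y
        rw [ENNReal.mul_rpow_of_nonneg _ _ hp0.le, ← ENNReal.rpow_mul,
          one_div_mul_cancel hp0.ne', ENNReal.rpow_one]
      simp only [e3, e4]
      refine mul_le_mul' ?_ le_rfl
      rw [lintegral_sub_left_eq_self (fun y => F y) x]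
      refine le_of_eq ?_
      congr 1
      field_simp
    calc ∫⁻ x : E n, (∫⁻ y : E n, F (x - y) * G y) ^ p ∂μ
        ≤ ∫⁻ x : E n, (∫⁻ y, F y) ^ (p / q) * (∫⁻ y : E n, F (x - y) * G y ^ p) ∂μ :=
          lintegral_mono h1
      _ = (∫⁻ y, F y) ^ (p / q) * ∫⁻ x : E n, (∫⁻ y : E n, F (x - y) * G y ^ p) ∂μ := by
          rw [lintegral_const_mul]
          exact Measurable.lintegral_prod_right' (f := fun z : E n × E n =>
            F (z.1 - z.2) * G z.2 ^ p) ((hF.comp (measurable_fst.sub measurable_snd)).mul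
            ((hG.pow_const _).comp measurable_snd))
      _ ≤ (∫⁻ y, F y) ^ (p / q) * (ENNReal.ofReal (2 ^ (n + 1)) * ∫⁻ y, G y ^ p) := by
          gcongr
          exact hconv _ (hG.pow_const _)
      _ = _ := by rw [hpq1, mul_assoc]

theorem Jw_lint (n : ℕ) : ∃ C : ℝ, 0 < C ∧ ∫⁻ x : E n, ENNReal.ofReal (Jw x) = ENNReal.ofReal C := by
  refine ⟨∫ w : E n, Jw w, ?_, ?_⟩
  · rw [integral_pos_iff_support_of_nonneg (fun w => (Jw_pos w).le) Jw_int]
    have : Function.support (Jw (n := n)) = univ := by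
      ext w; simp [(Jw_pos w).ne']
    rw [this]
    exact (Measure.measure_univ_pos.2 (NeZero.ne _))
  · rw [ofReal_integral_eq_lintegral_ofReal Jw_int (Eventually.of_forall fun w => (Jw_pos w).le)]

/-- sigma-finiteness -/
theorem sigmaFinite {n : ℕ} {α : ℝ} {μ : Measure (E n)} (hμ : Dim α μ) : SigmaFinite μ := by
  have : IsLocallyFiniteMeasure μ := by
    refine ⟨fun x => ⟨closedBall x 1, closedBall_mem_nhds x one_pos, ?_⟩⟩
    exact lt_of_le_of_lt (hμ x 1 le_rfl) ENNReal.ofReal_lt_top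
  infer_instance

/-- joint measurability of the kernels -/
theorem Kr_jm {n : ℕ} {ψ : ℝ → ℝ} (hψ : Bump ψ) (A : ℝ) :
    Measurable fun z : ℝ × E n => Kr (n := n) ψ A z.1 z.2 := by
  have hm : Measurable fun z : (ℝ × E n) × E n =>
      cexp (((-2 * Real.pi * ⟪z.2, z.1.2⟫ : ℝ) : ℂ) * I) * mu ψ A z.1.1 z.2 := by
    refine Measurable.mul ?_ ?_
    · apply Continuous.measurable
      fun_prop
    · unfold mu
      refine Complex.measurable_ofReal.comp (hψ.1.continuous.measurable.comp ?_)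
      fun_prop
  have h1 := (hm.stronglyMeasurable.integral_prod_right' (ν := (volume : Measure (E n)))).measurable
  have h2 : (fun z : ℝ × E n => Kr (n := n) ψ A z.1 z.2) = fun z : ℝ × E n => ∫ y : E n,
      cexp (((-2 * Real.pi * ⟪y, z.2⟫ : ℝ) : ℂ) * I) * mu ψ A z.1 y := by
    funext z
    unfold Kr
    rw [four_eq]
  rw [h2]
  exact h1

theorem Tp_jm {n : ℕ} {ψ : ℝ → ℝ} (hψ : Bump ψ) (A : ℝ) {R : E n → ℝ} (hR : Measurable R)
    {f : E n → ℂ} (hf : Measurable f) : Measurable fun x => Tp ψ A (R x) f x := by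
  have hm : Measurable fun z : E n × E n => Kr ψ A (R z.1) (z.1 - z.2) * f z.2 :=
    ((Kr_jm hψ A).comp ((hR.comp measurable_fst).prodMk
      (measurable_fst.sub measurable_snd))).mul (hf.comp measurable_snd)
  exact (hm.stronglyMeasurable.integral_prod_right' (ν := (volume : Measure (E n)))).measurable

end Pool.Agent.Y71.FB
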