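import Mathlib
import Pool.Agent.Y71.FB.GlobA
set_option autoImplicit false

/-! # Project FB: globalisation and the crude bound -/

namespace Pool.Agent.Y71.FB

open MeasureTheory Set Metric Complex Filter
open scoped ENNReal RealInnerProductSpace Topology FourierTransform
open Pool.Agent.H789R2.FR (E sg T)
open Pool.Agent.H438R2.RZ (Bump)
open Pool.Agent.Y248.BA
open Pool.Agent.Y248.FB

theorem ind_ball {n : ℕ} (μ : Measure (E n)) (r : ℝ) (h : E n → ℝ≥0∞) (u : E n) :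
    ∫⁻ x in closedBall u r, h x ∂μ =
      ∫⁻ x, {z : E n × E n | dist z.2 z.1 ≤ r}.indicator (fun z => h z.2) (u, x) ∂μ := by
  rw [← lintegral_indicator isClosed_closedBall.measurableSet]
  refine lintegral_congr fun x => ?_
  by_cases hx : dist x u ≤ r
  · rw [indicator_of_mem (show x ∈ closedBall u r from hx), indicator_of_mem
      (show (u, x) ∈ {z : E n × E n | dist z.2 z.1 ≤ r} from hx)]
  · rw [indicator_of_notMem (show x ∉ closedBall u r from hx), indicator_of_notMem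
      (show (u, x) ∉ {z : E n × E n | dist z.2 z.1 ≤ r} from hx)]

theorem ball_jm {n : ℕ} (r : ℝ) (h : E n → ℝ≥0∞) (hh : Measurable h) :
    Measurable ({z : E n × E n | dist z.2 z.1 ≤ r}.indicator (fun z => h z.2)) :=
  (hh.comp measurable_snd).indicator (measurableSet_le (by fun_prop) measurable_const)

theorem meas_ball {n : ℕ} (μ : Measure (E n)) [SFinite μ] (r : ℝ) (h : E n → ℝ≥0∞)
    (hh : Measurable h) : Measurable fun u : E n => ∫⁻ x in closedBall u r, h x ∂μ := by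
  simp only [ind_ball]
  exact Measurable.lintegral_prod_right' (ball_jm r h hh)

/-- averaging over balls -/
theorem avg_ball' {n : ℕ} (μ : Measure (E n)) [SFinite μ] (r : ℝ) (h : E n → ℝ≥0∞)
    (hh : Measurable h) :
    ∫⁻ u : E n, (∫⁻ x in closedBall u r, h x ∂μ) =
      (volume : Measure (E n)) (closedBall 0 r) * ∫⁻ x, h x ∂μ := by
  simp only [ind_ball]
  have hsw := lintegral_lintegral_swap (μ := (volume : Measure (E n)))
    (ν := μ) (f := fun u x => {z : E n × E n | dist z.2 z.1 ≤ r}.indicator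
      (fun z => h z.2) (u, x)) (ball_jm r h hh).aemeasurable
  rw [hsw, ← lintegral_const_mul _ hh]
  refine lintegral_congr fun x => ?_
  have e2 : ∀ u : E n, {z : E n × E n | dist z.2 z.1 ≤ r}.indicator (fun z => h z.2) (u, x) =
      (closedBall x r).indicator (fun _ => h x) u := by
    intro u
    by_cases hx : dist x u ≤ r
    · rw [indicator_of_mem (show u ∈ closedBall x r by rw [mem_closedBall, dist_comm]; exact hx),
        indicator_of_mem (show (u, x) ∈ {z : E n × E n | dist z.2 z.1 ≤ r} from hx)]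
    · rw [indicator_of_notMem (show u ∉ closedBall x r by
        rw [mem_closedBall, dist_comm]; exact hx), indicator_of_notMem
        (show (u, x) ∉ {z : E n × E n | dist z.2 z.1 ≤ r} from hx)]
  simp only [e2]
  rw [lintegral_indicator isClosed_closedBall.measurableSet, setLIntegral_const, mul_comm,
    Measure.addHaar_closedBall_center]

theorem t_gl (n : ℕ) (_hn : 2 ≤ n) : S_GL n := by
  intro ψ hψ α p ε M _ hα2 hp hε
  have hp0 : 0 < p := by linarith
  obtain ⟨C0, hC0, hb⟩ := Kr_tailM n hψ ε hε (M / p)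
  obtain ⟨V, hV, hVb⟩ := ball_vol n
  obtain ⟨CJ, hCJ, hJ⟩ := Jw_lint n
  refine ⟨C0 ^ p * (CJ ^ (p - 1) * 2 ^ (n + 1)), by positivity,
    fun μ hμ A hA R hR D hD hloc f hf hfp => ?_⟩
  have hsf := sigmaFinite hμ
  have hA0 : 0 < A := by linarith
  set ρ : ℝ := A ^ (1 + ε) with hρd
  have hρ : 0 < ρ := by positivity
  set Φ : E n → ℝ≥0∞ := fun x => ∫⁻ y, ENNReal.ofReal (Jw (x - y)) * ‖f y‖ₑ with hΦ
  have hΦm : Measurable Φ := by
    refine Measurable.lintegral_prod_right' (f := fun z : E n × E n =>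
      ENNReal.ofReal (Jw (z.1 - z.2)) * ‖f z.2‖ₑ) ?_
    exact ((Jw_cont.measurable.comp (measurable_fst.sub measurable_snd)).ennreal_ofReal).mul
      (hf.comp measurable_snd).enorm
  set c : ℝ≥0∞ := ENNReal.ofReal (C0 * A ^ (-(M / p))) with hc
  have hct : c ^ p ≠ ∞ := ENNReal.rpow_ne_top_of_nonneg hp0.le ENNReal.ofReal_ne_top
  have hTm : Measurable fun x => Tp ψ A (R x) f x := Tp_jm hψ A hR.1 hf
  -- on each ball
  have hball : ∀ u : E n, ∫⁻ x in closedBall u ρ, ‖Tp ψ A (R x) f x‖ₑ ^ p ∂μ ≤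
      2 ^ (p - 1) * (ENNReal.ofReal D * (∫⁻ x in closedBall u (2 * ρ), ‖f x‖ₑ ^ p) +
        c ^ p * ∫⁻ x in closedBall u ρ, Φ x ^ p ∂μ) := by
    intro u
    have hBm : MeasurableSet (closedBall u (2 * ρ)) := isClosed_closedBall.measurableSet
    have h1 := hloc u ((closedBall u (2 * ρ)).indicator f) (hf.indicator hBm)
      (fun x hx => indicator_of_notMem hx _) (by
        refine ne_top_of_le_ne_top hfp (lintegral_mono fun x => ?_)
        by_cases hx : x ∈ closedBall u (2 * ρ)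
        · rw [indicator_of_mem hx]
        · rw [indicator_of_notMem hx, enorm_zero, ENNReal.zero_rpow_of_pos hp0]; exact zero_le)
    have e1 : ∫⁻ x, ‖(closedBall u (2 * ρ)).indicator f x‖ₑ ^ p =
        ∫⁻ x in closedBall u (2 * ρ), ‖f x‖ₑ ^ p := by
      rw [← lintegral_indicator hBm]
      refine lintegral_congr fun x => ?_
      by_cases hx : x ∈ closedBall u (2 * ρ)
      · rw [indicator_of_mem hx, indicator_of_mem hx]
      · rw [indicator_of_notMem hx, indicator_of_notMem hx, enorm_zero,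
          ENNReal.zero_rpow_of_pos hp0]
    rw [e1] at h1
    calc ∫⁻ x in closedBall u ρ, ‖Tp ψ A (R x) f x‖ₑ ^ p ∂μ
        ≤ 2 ^ (p - 1) * ((∫⁻ x in closedBall u ρ,
            ‖Tp ψ A (R x) ((closedBall u (2 * ρ)).indicator f) x‖ₑ ^ p ∂μ) +
            ∫⁻ x in closedBall u ρ, c ^ p * Φ x ^ p ∂μ) := by
          rw [← lintegral_add_right _ ((hΦm.pow_const _).const_mul _), ← lintegral_const_mul' _ _
            (ENNReal.rpow_ne_top_of_nonneg (by linarith) (by norm_num))]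
          refine setLIntegral_mono' isClosed_closedBall.measurableSet fun x hx => ?_
          have h2 : ∫⁻ y, kf ψ A (R x) ρ (x - y) * ‖f y‖ₑ ≤ c * Φ x := by
            rw [hΦ, ← lintegral_const_mul' _ _ ENNReal.ofReal_ne_top]
            refine lintegral_mono fun y => ?_
            rw [← mul_assoc]
            refine mul_le_mul' ?_ le_rfl
            unfold kf
            by_cases hw : x - y ∈ {w : E n | ρ < ‖w‖}
            · rw [indicator_of_mem hw, ← ofReal_norm, ← ENNReal.ofReal_mul (by positivity)]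
              exact ENNReal.ofReal_le_ofReal
                (hb A (R x) hA (hR.2 x).1 (hR.2 x).2 (x - y) (le_of_lt hw))
            · rw [indicator_of_notMem hw]; exact zero_le
          have h3 := (split (ψ := ψ) (A := A) (R := R x) f u x ρ hx).trans
            (add_le_add le_rfl h2)
          refine (ENNReal.rpow_le_rpow h3 hp0.le).trans ?_
          refine (ENNReal.rpow_add_le_mul_rpow_add_rpow _ _ hp).trans ?_
          rw [ENNReal.mul_rpow_of_nonneg _ _ hp0.le]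
      _ = 2 ^ (p - 1) * ((∫⁻ x in closedBall u ρ,
            ‖Tp ψ A (R x) ((closedBall u (2 * ρ)).indicator f) x‖ₑ ^ p ∂μ) +
            c ^ p * ∫⁻ x in closedBall u ρ, Φ x ^ p ∂μ) := by
          rw [lintegral_const_mul' _ _ hct]
      _ ≤ _ := by gcongr
  -- integrate over the centres
  have hint := lintegral_mono (μ := (volume : Measure (E n))) hball
  have hfm : Measurable fun x => ‖f x‖ₑ ^ p := hf.enorm.pow_const _
  rw [lintegral_const_mul' _ _ (ENNReal.rpow_ne_top_of_nonneg (by linarith) (by norm_num)),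
    lintegral_add_left ((meas_ball volume _ _ hfm).const_mul _),
    lintegral_const_mul _ (meas_ball volume _ _ hfm),
    lintegral_const_mul' _ _ hct,
    avg_ball' μ ρ _ (hTm.enorm.pow_const _), avg_ball' μ ρ _ (hΦm.pow_const p),
    avg_ball (2 * ρ) _ hfm, hVb 0 ρ hρ.le, hVb 0 (2 * ρ) (by positivity)] at hint
  have hVρ : 0 < V * ρ ^ n := by positivity
  have e2 : ENNReal.ofReal (V * (2 * ρ) ^ n) =
      ENNReal.ofReal (V * ρ ^ n) * ENNReal.ofReal (2 ^ n) := by
    rw [← ENNReal.ofReal_mul hVρ.le]; congr 1; rw [mul_pow]; ring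
  rw [e2] at hint
  have h3 : ENNReal.ofReal (V * ρ ^ n) * ∫⁻ x, ‖Tp ψ A (R x) f x‖ₑ ^ p ∂μ ≤
      ENNReal.ofReal (V * ρ ^ n) * (2 ^ (p - 1) * (ENNReal.ofReal D * (ENNReal.ofReal (2 ^ n) *
        ∫⁻ x, ‖f x‖ₑ ^ p) + c ^ p * ∫⁻ x, Φ x ^ p ∂μ)) := by
    refine hint.trans (le_of_eq ?_)
    ring
  have h4 := (ENNReal.mul_le_mul_iff_right (by
    rw [Ne, ENNReal.ofReal_eq_zero]; push Not; exact hVρ) ENNReal.ofReal_ne_top).1 h3
  refine h4.trans ?_
  have h5 : ∫⁻ x, Φ x ^ p ∂μ ≤ ENNReal.ofReal (CJ ^ (p - 1) * 2 ^ (n + 1)) *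
      ∫⁻ x, ‖f x‖ₑ ^ p := by
    refine (schur hα2 hμ _ hf.enorm p hp).trans (le_of_eq ?_)
    rw [hJ, ENNReal.ofReal_rpow_of_pos hCJ, ENNReal.ofReal_mul (by positivity)]
  have h6 : c ^ p = ENNReal.ofReal (C0 ^ p * A ^ (-M)) := by
    rw [hc, ENNReal.ofReal_rpow_of_nonneg (by positivity) hp0.le]
    congr 1
    rw [Real.mul_rpow hC0.le (by positivity), ← Real.rpow_mul hA0.le]
    congr 2
    field_simp
  calc 2 ^ (p - 1) * (ENNReal.ofReal D * (ENNReal.ofReal (2 ^ n) * ∫⁻ x, ‖f x‖ₑ ^ p) +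
        c ^ p * ∫⁻ x, Φ x ^ p ∂μ)
      ≤ 2 ^ (p - 1) * (ENNReal.ofReal D * (ENNReal.ofReal (2 ^ n) * ∫⁻ x, ‖f x‖ₑ ^ p) +
        c ^ p * (ENNReal.ofReal (CJ ^ (p - 1) * 2 ^ (n + 1)) * ∫⁻ x, ‖f x‖ₑ ^ p)) := by
        gcongr
    _ = ENNReal.ofReal (2 ^ (p - 1)) * ((ENNReal.ofReal (2 ^ n) * ENNReal.ofReal D +
          ENNReal.ofReal (C0 ^ p * A ^ (-M)) * ENNReal.ofReal (CJ ^ (p - 1) * 2 ^ (n + 1))) *
          ∫⁻ x, ‖f x‖ₑ ^ p) := by
        rw [← ENNReal.ofReal_rpow_of_pos two_pos, ENNReal.ofReal_ofNat, h6]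
        ring
    _ = _ := by
        rw [← ENNReal.ofReal_mul (by positivity), ← ENNReal.ofReal_mul (by positivity),
          ← ENNReal.ofReal_add (by positivity) (by positivity), ← mul_assoc,
          ← ENNReal.ofReal_mul (by positivity)]
        congr 2
        ring

theorem t_cr (n : ℕ) (_hn : 2 ≤ n) : S_CR n := by
  intro ψ hψ α p _ hα2 hp
  have hp0 : 0 < p := by linarith
  obtain ⟨C0, hC0, hb⟩ := Kr_crude n hψ
  obtain ⟨CJ, hCJ, hJ⟩ := Jw_lint n
  refine ⟨(C0 * 4 ^ (n + 1)) ^ p * (CJ ^ (p - 1) * 2 ^ (n + 1)), by positivity,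
    fun μ hμ A hA hA4 R hR f hf hfp => ?_⟩
  have hsf := sigmaFinite hμ
  have hA0 : 0 < A := by linarith
  set c : ℝ≥0∞ := ENNReal.ofReal (C0 * 4 ^ (n + 1)) with hc
  have hct : c ^ p ≠ ∞ := ENNReal.rpow_ne_top_of_nonneg hp0.le ENNReal.ofReal_ne_top
  have h1 : ∀ x, ‖Tp ψ A (R x) f x‖ₑ ≤ c * ∫⁻ y, ENNReal.ofReal (Jw (x - y)) * ‖f y‖ₑ := by
    intro x
    rw [← lintegral_const_mul' _ _ ENNReal.ofReal_ne_top]
    unfold Tp
    refine (enorm_integral_le_lintegral_enorm _).trans (lintegral_mono fun y => ?_)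
    rw [enorm_mul, ← mul_assoc]
    refine mul_le_mul' ?_ le_rfl
    rw [← ofReal_norm, ← ENNReal.ofReal_mul (by positivity)]
    refine ENNReal.ofReal_le_ofReal ((hb A (R x) hA (hR.2 x).1 (hR.2 x).2 (x - y)).trans ?_)
    have := Jw_pos (x - y)
    gcongr
  calc ∫⁻ x, ‖Tp ψ A (R x) f x‖ₑ ^ p ∂μ
      ≤ ∫⁻ x, c ^ p * (∫⁻ y, ENNReal.ofReal (Jw (x - y)) * ‖f y‖ₑ) ^ p ∂μ := by
        refine lintegral_mono fun x => ?_
        rw [← ENNReal.mul_rpow_of_nonneg _ _ hp0.le]
        exact ENNReal.rpow_le_rpow (h1 x) hp0.le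
    _ = c ^ p * ∫⁻ x, (∫⁻ y, ENNReal.ofReal (Jw (x - y)) * ‖f y‖ₑ) ^ p ∂μ :=
        lintegral_const_mul' _ _ hct
    _ ≤ c ^ p * ((∫⁻ x : E n, ENNReal.ofReal (Jw x)) ^ (p - 1) * ENNReal.ofReal (2 ^ (n + 1)) *
        ∫⁻ y, ‖f y‖ₑ ^ p) := by
        gcongr
        exact schur hα2 hμ _ hf.enorm p hp
    _ = _ := by
        rw [hJ, hc, ENNReal.ofReal_rpow_of_nonneg (by positivity) hp0.le,
          ENNReal.ofReal_rpow_of_pos hCJ, ← ENNReal.ofReal_mul (by positivity), ← mul_assoc,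
          ← ENNReal.ofReal_mul (by positivity)]

end Pool.Agent.Y71.FB
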